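import Pool.Graph.R_seed8.Results.MP_dcf3dc_co.EulerianThree

/-!
# Strong majority edge-colourings with two colours
-/

set_option autoImplicit false

open Finset SimpleGraph

namespace Pool.Agent.KS6_80.MJ

open Pool.Agent.Results.MP_dcf3dc_co.EulerianThree

variable {V : Type} [Fintype V] [DecidableEq V] (G : SimpleGraph V) [DecidableRel G.Adj]

/-- the number of edges of colour `i` at `v` -/
def aa {k : ℕ} (c : Sym2 V → Fin k) (v : V) (i : Fin k) : ℕ :=
  ((G.neighborFinset v).filter fun w => c s(v, w) = i).card

lemma aa_eq {k : ℕ} (c : Sym2 V → Fin k) (v : V) (i : Fin k) :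
    (G.edgeFinset.filter fun f => v ∈ f ∧ c f = i).card = aa G c v i := by
  symm
  unfold aa
  apply Finset.card_bij (fun w _ => s(v, w))
  · intro w hw
    rw [mem_filter, mem_neighborFinset] at hw
    rw [mem_filter, mem_edgeFinset, mem_edgeSet]
    exact ⟨hw.1, Sym2.mem_mk_left _ _, hw.2⟩
  · intro w _ w' _ h
    exact Sym2.congr_right.1 h
  · intro f hf
    rw [mem_filter] at hf
    obtain ⟨h1, h2, h3⟩ := hf
    obtain ⟨w, rfl⟩ := h2
    rw [mem_edgeFinset, mem_edgeSet] at h1
    exact ⟨w, by rw [mem_filter, mem_neighborFinset]; exact ⟨h1, h3⟩, rfl⟩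

lemma count_eq {k : ℕ} (c : Sym2 V → Fin k) {u v : V} (h : G.Adj u v) (i : Fin k) :
    ((G.edgeFinset.filter
      (fun f => ((u ∈ f ∧ v ∉ f) ∨ (u ∉ f ∧ v ∈ f)) ∧ c f = i)).card : ℤ) =
    aa G c u i + aa G c v i - 2 * (if c s(u, v) = i then 1 else 0) := by
  rw [← aa_eq, ← aa_eq, card_filter, card_filter, card_filter]
  push_cast
  have h1 : ∀ f ∈ G.edgeFinset,
      (if ((u ∈ f ∧ v ∉ f) ∨ (u ∉ f ∧ v ∈ f)) ∧ c f = i then (1 : ℤ) else 0) =
      ((if u ∈ f ∧ c f = i then 1 else 0) + (if v ∈ f ∧ c f = i then 1 else 0)) -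
        2 * (if f = s(u, v) then (if c s(u, v) = i then 1 else 0) else 0) := by
    intro f _
    have h2 := Sym2.mem_and_mem_iff (z := f) h.ne
    by_cases h3 : f = s(u, v)
    · obtain ⟨h4, h5⟩ := h2.2 h3
      rw [if_pos h3]
      by_cases h6 : c f = i
      · have h7 : c s(u, v) = i := by rw [← h3]; exact h6
        simp [h4, h5, h6, h7]
      · have h7 : ¬ c s(u, v) = i := by rw [← h3]; exact h6
        simp [h6, h7]
    · rw [if_neg h3]
      have h4 : ¬ (u ∈ f ∧ v ∈ f) := fun h => h3 (h2.1 h)
      by_cases h5 : u ∈ f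
      · have h6 : v ∉ f := fun h => h4 ⟨h5, h⟩
        simp [h5, h6]
      · by_cases h6 : v ∈ f
        · simp [h5, h6]
        · simp [h5, h6]
  rw [sum_congr rfl h1, sum_sub_distrib, sum_add_distrib, ← mul_sum, sum_ite_eq',
    if_pos (mem_edgeFinset.2 h)]

lemma aa_one (c : Sym2 V → Fin 1) (v : V) : aa G c v 0 = G.degree v := by
  unfold aa
  rw [filter_true_of_mem fun w _ => Subsingleton.elim _ _]
  rfl

lemma aa_two (c : Sym2 V → Fin 2) (v : V) : aa G c v 0 + aa G c v 1 = G.degree v := by
  unfold aa
  have h : ((G.neighborFinset v).filter fun w => c s(v, w) = 1) =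
      (G.neighborFinset v).filter fun w => ¬ c s(v, w) = 0 := by
    apply filter_congr
    intro w _
    constructor
    · intro h h'
      rw [h] at h'
      exact absurd h' (by decide)
    · intro h
      have h2 := c s(v, w)
      rcases Fin.exists_fin_two.1 ⟨c s(v, w), rfl⟩ with h3 | h3
      · exact absurd h3 h
      · exact h3
  rw [h, card_filter_add_card_filter_not]
  rfl

/-- a height function: the neighbours of `v` have the heights `τ v ± 1`, and exactly
`d(v)/2 + τ v` of them have the height `τ v - 1` -/
def IsHeight (τ : V → ℤ) : Prop :=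
  (∀ u v : V, G.Adj u v → τ u = τ v + 1 ∨ τ v = τ u + 1) ∧
  ∀ v : V, 2 * ((((G.neighborFinset v).filter fun u => τ u = τ v - 1).card : ℕ) : ℤ) =
    G.degree v + 2 * τ v

variable {G}

lemma half_eq {c : Sym2 V → Fin 2} (hc : IsStrongMajority G c) {u v : V} (h : G.Adj u v) :
    2 * ((aa G c u 0 : ℤ) + aa G c v 0) - 4 * (if c s(u, v) = 0 then 1 else 0) =
      G.degree u + G.degree v - 2 := by
  have h0 := hc u v h 0
  have h1 := hc u v h 1
  have e0 := count_eq G c h 0
  have e1 := count_eq G c h 1
  have d1 := aa_two G c u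
  have d2 := aa_two G c v
  have d1' : (aa G c u 0 : ℤ) + aa G c u 1 = G.degree u := by exact_mod_cast d1
  have d2' : (aa G c v 0 : ℤ) + aa G c v 1 = G.degree v := by exact_mod_cast d2
  have e3 : (if c s(u, v) = 0 then (1 : ℤ) else 0) + (if c s(u, v) = 1 then 1 else 0) = 1 := by
    rcases Fin.exists_fin_two.1 ⟨c s(u, v), rfl⟩ with h3 | h3
    · have h3' : c s(u, v) = 0 := h3
      rw [h3']
      decide
    · have h3' : c s(u, v) = 1 := h3
      rw [h3']
      decide
  set A := (G.edgeFinset.filter
      (fun f => ((u ∈ f ∧ v ∉ f) ∨ (u ∉ f ∧ v ∈ f)) ∧ c f = 0)).card with hA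
  set B := (G.edgeFinset.filter
      (fun f => ((u ∈ f ∧ v ∉ f) ∨ (u ∉ f ∧ v ∈ f)) ∧ c f = 1)).card with hB
  have f0 : 2 * (A : ℤ) ≤ G.degree u + G.degree v - 2 := by
    have : 2 * (A : ℚ) ≤ G.degree u + G.degree v - 2 := by linarith
    exact_mod_cast this
  have f1 : 2 * (B : ℤ) ≤ G.degree u + G.degree v - 2 := by
    have : 2 * (B : ℚ) ≤ G.degree u + G.degree v - 2 := by linarith
    exact_mod_cast this
  linarith

/-- a colouring with two colours gives a height function -/
lemma height_of_colouring (hev : ∀ v, Even (G.degree v)) {c : Sym2 V → Fin 2}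
    (hc : IsStrongMajority G c) : ∃ τ : V → ℤ, IsHeight G τ := by
  choose δ hδ using hev
  let σ : V → ℤ := fun v => aa G c v 0 - δ v
  have hσ : ∀ u v, G.Adj u v → σ u + σ v = 2 * (if c s(u, v) = 0 then 1 else 0) - 1 := by
    intro u v h
    have h1 := half_eq hc h
    have h2 : (G.degree u : ℤ) = δ u + δ u := by exact_mod_cast hδ u
    have h3 : (G.degree v : ℤ) = δ v + δ v := by exact_mod_cast hδ v
    simp only [σ]
    linarith
  have hσ2 : ∀ u v, G.Adj u v → (c s(u, v) = 0 ∧ σ u + σ v = 1) ∨
      (c s(u, v) = 1 ∧ σ u + σ v = -1) := by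
    intro u v h
    have h1 := hσ u v h
    rcases Fin.exists_fin_two.1 ⟨c s(u, v), rfl⟩ with h3 | h3
    · have h3' : c s(u, v) = 0 := h3
      left
      rw [if_pos h3'] at h1
      exact ⟨h3', by linarith⟩
    · have h3' : c s(u, v) = 1 := h3
      right
      rw [if_neg (by rw [h3']; decide)] at h1
      exact ⟨h3', by linarith⟩
  let τ : V → ℤ := fun v => if Even (σ v) then σ v else - σ v
  have hτ1 : ∀ v, Even (σ v) → τ v = σ v := fun v h => if_pos h
  have hτ2 : ∀ v, ¬ Even (σ v) → τ v = - σ v := fun v h => if_neg h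
  have hpar : ∀ u v, G.Adj u v → (Even (σ u) ∧ ¬ Even (σ v)) ∨ (¬ Even (σ u) ∧ Even (σ v)) := by
    intro u v h
    rcases hσ2 u v h with ⟨-, h1⟩ | ⟨-, h1⟩ <;> rw [Int.even_iff, Int.even_iff] <;> omega
  refine ⟨τ, ?_, ?_⟩
  · intro u v h
    rcases hpar u v h with ⟨h1, h2⟩ | ⟨h1, h2⟩
    · rw [hτ1 u h1, hτ2 v h2]
      rcases hσ2 u v h with ⟨-, h3⟩ | ⟨-, h3⟩ <;> omega
    · rw [hτ2 u h1, hτ1 v h2]
      rcases hσ2 u v h with ⟨-, h3⟩ | ⟨-, h3⟩ <;> omega
  · intro v
    have hd : (G.degree v : ℤ) = δ v + δ v := by exact_mod_cast hδ v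
    have h2' : (aa G c v 0 : ℤ) + aa G c v 1 = G.degree v := by exact_mod_cast aa_two G c v
    by_cases h1 : Even (σ v)
    · have h3 : ((G.neighborFinset v).filter fun u => τ u = τ v - 1).card = aa G c v 0 := by
        unfold aa
        congr 1
        apply filter_congr
        intro w hw
        rw [mem_neighborFinset] at hw
        have h4 : ¬ Even (σ w) := by
          rcases hpar v w hw with h | h
          · exact h.2
          · exact absurd h1 h.1
        rw [hτ1 v h1, hτ2 w h4]
        rcases hσ2 v w hw with ⟨h5, h6⟩ | ⟨h5, h6⟩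
        · simp only [h5, iff_true]
          omega
        · rw [h5]
          constructor
          · intro h7
            omega
          · intro h7
            exact absurd h7 (by decide)
      rw [h3, hτ1 v h1]
      simp only [σ]
      linarith
    · have h3 : ((G.neighborFinset v).filter fun u => τ u = τ v - 1).card = aa G c v 1 := by
        unfold aa
        congr 1
        apply filter_congr
        intro w hw
        rw [mem_neighborFinset] at hw
        have h4 : Even (σ w) := by
          rcases hpar v w hw with h | h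
          · exact absurd h.1 h1
          · exact h.2
        rw [hτ2 v h1, hτ1 w h4]
        rcases hσ2 v w hw with ⟨h5, h6⟩ | ⟨h5, h6⟩
        · rw [h5]
          constructor
          · intro h7
            omega
          · intro h7
            exact absurd h7 (by decide)
        · simp only [h5, iff_true]
          omega
      rw [h3, hτ2 v h1]
      simp only [σ]
      linarith

/-- the colouring of a height function: colour `0` if the upper end has even height -/
def colr (τ : V → ℤ) : Sym2 V → Fin 2 :=
  Sym2.lift ⟨fun u v => if Even (max (τ u) (τ v)) then 0 else 1, fun u v => by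
    simp only [max_comm (τ u) (τ v)]⟩

lemma colr_mk (τ : V → ℤ) (u v : V) :
    colr τ s(u, v) = if Even (max (τ u) (τ v)) then 0 else 1 := rfl

lemma aa_colr {τ : V → ℤ} (hτ : IsHeight G τ) (v : V) :
    2 * (aa G (colr τ) v 0 : ℤ) = G.degree v + 2 * (if Even (τ v) then τ v else - τ v) := by
  have h1 := hτ.2 v
  have hadj : ∀ w ∈ G.neighborFinset v, τ w = τ v - 1 ∨ τ w = τ v + 1 := by
    intro w hw
    rw [mem_neighborFinset] at hw
    rcases hτ.1 v w hw with h | h
    · left; omega
    · right; omega
  by_cases h2 : Even (τ v)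
  · have h3 : aa G (colr τ) v 0 = ((G.neighborFinset v).filter fun u => τ u = τ v - 1).card := by
      unfold aa
      congr 1
      apply filter_congr
      intro w hw
      rw [colr_mk]
      rcases hadj w hw with h | h
      · have h4 : max (τ v) (τ w) = τ v := by omega
        rw [h4, if_pos h2]
        simp [h]
      · have h4 : max (τ v) (τ w) = τ v + 1 := by omega
        have h5 : ¬ Even (τ v + 1) := by
          rw [Int.even_iff] at h2 ⊢
          omega
        rw [h4, if_neg h5]
        constructor
        · intro h6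
          exact absurd h6 (by decide)
        · intro h6
          omega
    rw [h3, if_pos h2]
    exact h1
  · have h3 : aa G (colr τ) v 0 =
        ((G.neighborFinset v).filter fun u => ¬ τ u = τ v - 1).card := by
      unfold aa
      congr 1
      apply filter_congr
      intro w hw
      rw [colr_mk]
      rcases hadj w hw with h | h
      · have h4 : max (τ v) (τ w) = τ v := by omega
        rw [h4, if_neg h2]
        constructor
        · intro h6
          exact absurd h6 (by decide)
        · intro h6
          exact absurd h h6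
      · have h4 : max (τ v) (τ w) = τ v + 1 := by omega
        have h5 : Even (τ v + 1) := by
          rw [Int.even_iff] at h2 ⊢
          omega
        rw [h4, if_pos h5]
        simp only [true_iff]
        omega
    have h4 : (((G.neighborFinset v).filter fun u => τ u = τ v - 1).card : ℤ) +
        ((G.neighborFinset v).filter fun u => ¬ τ u = τ v - 1).card = G.degree v := by
      have := card_filter_add_card_filter_not (s := G.neighborFinset v) (fun u => τ u = τ v - 1)
      rw [card_neighborFinset_eq_degree] at this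
      exact_mod_cast this
    rw [h3, if_neg h2]
    linarith

/-- a height function gives a colouring with two colours -/
lemma colouring_of_height {τ : V → ℤ} (hτ : IsHeight G τ) : IsStrongMajority G (colr τ) := by
  intro u v h i
  have e := count_eq G (colr τ) h i
  have a1 := aa_colr hτ u
  have a2 := aa_colr hτ v
  have d1 : (aa G (colr τ) u 0 : ℤ) + aa G (colr τ) u 1 = G.degree u := by
    exact_mod_cast aa_two G _ u
  have d2 : (aa G (colr τ) v 0 : ℤ) + aa G (colr τ) v 1 = G.degree v := by
    exact_mod_cast aa_two G _ v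
  have hm := colr_mk τ u v
  set A := (G.edgeFinset.filter
      (fun f => ((u ∈ f ∧ v ∉ f) ∨ (u ∉ f ∧ v ∈ f)) ∧ colr τ f = i)).card with hA
  suffices hs : 2 * (A : ℤ) ≤ G.degree u + G.degree v - 2 by
    have : 2 * (A : ℚ) ≤ G.degree u + G.degree v - 2 := by exact_mod_cast hs
    linarith
  have key : ∀ a b : ℤ, (a = b + 1 ∨ b = a + 1) →
      (Even (max a b) ∧ (if Even a then a else -a) + (if Even b then b else -b) = 1) ∨
      (¬ Even (max a b) ∧ (if Even a then a else -a) + (if Even b then b else -b) = -1) := by
    intro a b hab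
    rcases hab with hab | hab
    · have h1 : max a b = a := by omega
      rw [h1]
      by_cases ha : Even a
      · have hb : ¬ Even b := by
          rw [Int.even_iff] at ha ⊢
          omega
        rw [if_pos ha, if_neg hb]
        left
        exact ⟨ha, by omega⟩
      · have hb : Even b := by
          rw [Int.even_iff] at ha ⊢
          omega
        rw [if_neg ha, if_pos hb]
        right
        exact ⟨ha, by omega⟩
    · have h1 : max a b = b := by omega
      rw [h1]
      by_cases ha : Even b
      · have hb : ¬ Even a := by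
          rw [Int.even_iff] at ha ⊢
          omega
        rw [if_pos ha, if_neg hb]
        left
        exact ⟨ha, by omega⟩
      · have hb : Even a := by
          rw [Int.even_iff] at ha ⊢
          omega
        rw [if_neg ha, if_pos hb]
        right
        exact ⟨ha, by omega⟩
  have hi : i = 0 ∨ i = 1 := by
    rcases Fin.exists_fin_two.1 ⟨i, rfl⟩ with h3 | h3
    · exact Or.inl h3
    · exact Or.inr h3
  rcases key _ _ (hτ.1 u v h) with ⟨k1, k2⟩ | ⟨k1, k2⟩
  · rw [if_pos k1] at hm
    rcases hi with rfl | rfl
    · rw [if_pos hm] at e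
      linarith
    · rw [if_neg (by rw [hm]; decide)] at e
      linarith
  · rw [if_neg k1] at hm
    rcases hi with rfl | rfl
    · rw [if_neg (by rw [hm]; decide)] at e
      linarith
    · rw [if_pos hm] at e
      linarith

end Pool.Agent.KS6_80.MJ
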