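import Pool.Agent.KS6_80.MJ.A

/-!
# The exact value of the strong majority number of Eulerian graphs
-/

set_option autoImplicit false

open Finset SimpleGraph

namespace Pool.Agent.KS6_80.MJ

open Pool.Agent.Results.MP_dcf3dc_co.EulerianThree

variable {V : Type} [Fintype V] [DecidableEq V] {G : SimpleGraph V} [DecidableRel G.Adj]

omit [DecidableEq V] in
lemma swap (f : V → V → ℤ) : ∑ v, ∑ w ∈ G.neighborFinset v, f v w =
    ∑ v, ∑ w ∈ G.neighborFinset v, f w v := by
  apply Finset.sum_comm'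
  intro x y
  simp only [mem_univ, true_and, mem_neighborFinset, and_true]
  exact G.adj_comm x y

omit [DecidableEq V] in
lemma lap0 {τ : V → ℤ} (hτ : ∀ u v : V, G.Adj u v → τ u = τ v + 1 ∨ τ v = τ u + 1) (v : V) :
    ∑ w ∈ G.neighborFinset v, (τ v - τ w) =
      2 * ((((G.neighborFinset v).filter fun u => τ u = τ v - 1).card : ℕ) : ℤ) - G.degree v := by
  have h1 : ∀ w ∈ G.neighborFinset v, τ v - τ w = 2 * (if τ w = τ v - 1 then 1 else 0) - 1 := by
    intro w hw
    rw [mem_neighborFinset] at hw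
    rcases hτ v w hw with h | h
    · rw [if_pos (by omega)]
      omega
    · rw [if_neg (by omega)]
      omega
  rw [sum_congr rfl h1, sum_sub_distrib, ← mul_sum, sum_boole]
  simp only [sum_const, card_neighborFinset_eq_degree, nsmul_eq_mul, mul_one]

omit [DecidableEq V] in
lemma lap {τ : V → ℤ} (hτ : IsHeight G τ) (v : V) :
    ∑ w ∈ G.neighborFinset v, (τ v - τ w) = 2 * τ v := by
  rw [lap0 hτ.1 v, hτ.2 v]
  ring

omit [DecidableEq V] in
lemma height_iff (τ : V → ℤ) : IsHeight G τ ↔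
    (∀ u v : V, G.Adj u v → τ u = τ v + 1 ∨ τ v = τ u + 1) ∧
    ∀ v : V, ∑ w ∈ G.neighborFinset v, (τ v - τ w) = 2 * τ v := by
  constructor
  · intro h
    exact ⟨h.1, lap h⟩
  · rintro ⟨h1, h2⟩
    refine ⟨h1, fun v => ?_⟩
    have h3 := h2 v
    rw [lap0 h1 v] at h3
    linarith

lemma edges_eq {τ : V → ℤ} (hτ : IsHeight G τ) :
    (G.edgeFinset.card : ℤ) = 2 * ∑ v, τ v ^ 2 := by
  have h1 : ∑ v, ∑ w ∈ G.neighborFinset v, (τ v - τ w) * τ v = ∑ v, 2 * τ v ^ 2 := by
    apply sum_congr rfl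
    intro v _
    rw [← sum_mul, lap hτ v]
    ring
  have h2 : ∑ v, ∑ w ∈ G.neighborFinset v, (τ v - τ w) * τ w =
      - ∑ v, 2 * τ v ^ 2 := by
    rw [swap (fun v w => (τ v - τ w) * τ w), ← h1, ← sum_neg_distrib]
    apply sum_congr rfl
    intro v _
    rw [← sum_neg_distrib]
    apply sum_congr rfl
    intro w _
    ring
  have h3 : ∑ v, ∑ w ∈ G.neighborFinset v, (τ v - τ w) ^ 2 = ∑ v, (G.degree v : ℤ) := by
    apply sum_congr rfl
    intro v _
    have h4 : ∀ w ∈ G.neighborFinset v, (τ v - τ w) ^ 2 = 1 := by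
      intro w hw
      rw [mem_neighborFinset] at hw
      rcases hτ.1 v w hw with h | h
      · have : τ v - τ w = 1 := by omega
        rw [this]
        norm_num
      · have : τ v - τ w = -1 := by omega
        rw [this]
        norm_num
    rw [sum_congr rfl h4]
    simp
  have h4 : ∑ v, (G.degree v : ℤ) = 2 * G.edgeFinset.card := by
    exact_mod_cast G.sum_degrees_eq_twice_card_edges
  have h5 : ∑ v, ∑ w ∈ G.neighborFinset v, (τ v - τ w) ^ 2 =
      ∑ v, ∑ w ∈ G.neighborFinset v, (τ v - τ w) * τ v -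
      ∑ v, ∑ w ∈ G.neighborFinset v, (τ v - τ w) * τ w := by
    rw [← sum_sub_distrib]
    apply sum_congr rfl
    intro v _
    rw [← sum_sub_distrib]
    apply sum_congr rfl
    intro w _
    ring
  rw [mul_sum]
  linarith

lemma sum_zero {τ : V → ℤ} (hτ : IsHeight G τ) : ∑ v, τ v = 0 := by
  have h1 : ∑ v, ∑ w ∈ G.neighborFinset v, (τ v - τ w) = 2 * ∑ v, τ v := by
    rw [mul_sum]
    exact sum_congr rfl fun v _ => lap hτ v
  have h2 : ∑ v, ∑ w ∈ G.neighborFinset v, (τ v - τ w) = - (2 * ∑ v, τ v) := by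
    rw [swap (fun v w => τ v - τ w), ← h1, ← sum_neg_distrib]
    apply sum_congr rfl
    intro v _
    rw [← sum_neg_distrib]
    apply sum_congr rfl
    intro w _
    ring
  linarith

lemma four_dvd {τ : V → ℤ} (hτ : IsHeight G τ) : 4 ∣ G.edgeFinset.card := by
  have h1 := edges_eq hτ
  have h2 : ∑ v, τ v ^ 2 = ∑ v, (τ v ^ 2 - τ v) := by
    rw [sum_sub_distrib, sum_zero hτ, sub_zero]
  have h3 : (2 : ℤ) ∣ ∑ v, τ v ^ 2 := by
    rw [h2]
    apply dvd_sum
    intro v _
    have h4 := Int.even_mul_pred_self (τ v)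
    have h5 : τ v ^ 2 - τ v = τ v * (τ v - 1) := by ring
    rw [h5]
    exact h4.two_dvd
  obtain ⟨x, hx⟩ := h3
  have h4 : (4 : ℤ) ∣ (G.edgeFinset.card : ℤ) := ⟨x, by rw [h1, hx]; ring⟩
  exact_mod_cast h4

omit [Fintype V] [DecidableEq V] [DecidableRel G.Adj] in
lemma bip {τ : V → ℤ} (hτ : ∀ u v : V, G.Adj u v → τ u = τ v + 1 ∨ τ v = τ u + 1) :
    G.IsBipartite := by
  refine ⟨Coloring.mk (fun v => if Even (τ v) then (0 : Fin 2) else 1) ?_⟩
  intro u v h
  simp only [Int.even_iff]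
  rcases hτ u v h with h1 | h1
  · by_cases h2 : τ u % 2 = 0
    · rw [if_pos h2, if_neg (by omega)]
      decide
    · rw [if_neg h2, if_pos (by omega)]
      decide
  · by_cases h2 : τ u % 2 = 0
    · rw [if_pos h2, if_neg (by omega)]
      decide
    · rw [if_neg h2, if_pos (by omega)]
      decide

lemma maj_mem (hG : IsEulerianGraph G) : ∃ c : Sym2 V → Fin (maj G), IsStrongMajority G c :=
  Nat.sInf_mem (s := {k : ℕ | ∃ c : Sym2 V → Fin k, IsStrongMajority G c})
    ⟨3, (result V G hG).1⟩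

lemma two_le (hG : IsEulerianGraph G) {k : ℕ} (c : Sym2 V → Fin k) (hc : IsStrongMajority G c) :
    2 ≤ k := by
  obtain ⟨e, he⟩ := hG.2.1
  induction e using Sym2.ind with
  | _ u v =>
    rw [mem_edgeSet] at he
    by_contra hk
    have hk2 : k = 0 ∨ k = 1 := by omega
    rcases hk2 with rfl | rfl
    · exact (c s(u, v)).elim0
    · have h1 := hc u v he 0
      have h2 := count_eq G c he 0
      rw [aa_one, aa_one, if_pos (Subsingleton.elim _ _)] at h2
      have h3 : ∀ w, 0 < G.degree w → 2 ≤ G.degree w := by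
        intro w hw
        obtain ⟨x, hx⟩ := hG.2.2 w
        omega
      have h4 := h3 u ((G.degree_pos_iff_exists_adj u).2 ⟨v, he⟩)
      have h5 := h3 v ((G.degree_pos_iff_exists_adj v).2 ⟨u, he.symm⟩)
      have h6 : (((G.edgeFinset.filter
        (fun f => ((u ∈ f ∧ v ∉ f) ∨ (u ∉ f ∧ v ∈ f)) ∧ c f = 0)).card : ℕ) : ℚ) =
          G.degree u + G.degree v - 2 * 1 := by
        exact_mod_cast h2
      rw [h6] at h1
      have h7 : (2 : ℚ) ≤ G.degree u := by exact_mod_cast h4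
      have h8 : (2 : ℚ) ≤ G.degree v := by exact_mod_cast h5
      linarith

theorem main (hG : IsEulerianGraph G) :
    (maj G = 2 ∨ maj G = 3) ∧ (maj G = 2 ↔ ∃ τ : V → ℤ, IsHeight G τ) ∧
      (maj G = 2 → G.IsBipartite ∧ 4 ∣ G.edgeFinset.card) := by
  obtain ⟨c, hc⟩ := maj_mem hG
  have h1 := two_le hG c hc
  have h2 := (result V G hG).2
  have h3 : maj G = 2 ↔ ∃ τ : V → ℤ, IsHeight G τ := by
    constructor
    · intro h
      have h' := maj_mem hG
      rw [h] at h'
      obtain ⟨c, hc⟩ := h'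
      exact height_of_colouring hG.2.2 hc
    · rintro ⟨τ, hτ⟩
      apply le_antisymm _ h1
      exact Nat.sInf_le ⟨colr τ, colouring_of_height hτ⟩
  refine ⟨by omega, h3, fun h => ?_⟩
  obtain ⟨τ, hτ⟩ := h3.1 h
  exact ⟨bip hτ.1, four_dvd hτ⟩

end Pool.Agent.KS6_80.MJ
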